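import Mathlib

/-!
The filling inequality for the integral cycles of a projective resolution.
-/

set_option autoImplicit false

namespace Pool.Agent.LibFi47

open CategoryTheory

variable {G I J : Type} [Group G]

/-- The boundary from degree `m + 1` to degree `m` of the resolution `P`, with respect to the
bases of the free modules `P_{m+1}` and `P_m` which are given by `e` and `e'`. -/
noncomputable def bdy (P : ProjectiveResolution (Rep.trivial ℤ G ℤ)) (m : ℕ)
    (e : P.complex.X (m + 1) ≅ Rep.free ℤ G I) (e' : P.complex.X m ≅ Rep.free ℤ G J)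
    (x : I →₀ MonoidAlgebra ℤ G) : J →₀ MonoidAlgebra ℤ G :=
  (e.inv ≫ P.complex.d (m + 1) m ≫ e'.hom).hom x

/-- The sum of the squares of the coefficients of an element of a free module over the group
ring. -/
noncomputable def sqF (x : I →₀ MonoidAlgebra ℤ G) : ℝ :=
  ∑ i ∈ x.support, ∑ g ∈ (x i).coeff.support, (((x i).coeff g : ℤ) : ℝ) ^ 2

/-- The linear isoperimetric inequality for the integral cycles of degree `m`: every boundary of
degree `m` bounds a chain the square of whose norm is at most `C` times the square of the norm of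
the boundary. -/
def LinFill (P : ProjectiveResolution (Rep.trivial ℤ G ℤ)) (m : ℕ)
    (e : P.complex.X (m + 1) ≅ Rep.free ℤ G I) (e' : P.complex.X m ≅ Rep.free ℤ G J) : Prop :=
  ∃ C : ℝ, ∀ x : I →₀ MonoidAlgebra ℤ G, ∃ y : I →₀ MonoidAlgebra ℤ G,
    bdy P m e e' y = bdy P m e e' x ∧ sqF y ≤ C * sqF (bdy P m e e' x)

end Pool.Agent.LibFi47
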