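import Pool.Agent.LibFi47.Base


set_option autoImplicit false

namespace Pool.Agent.LibFi47.HX2

open Pool.Agent.LibFi47 CategoryTheory

variable {G I J : Type} [Group G]

section Generic

variable {k : Type} [CommRing k]

/-- the coordinates. -/
noncomputable def psiK (A : Rep.{0} k G) (I : Type) [DecidableEq I] :
    (((Rep.coinvariantsTensor k G).obj A).obj (Rep.free k G I) : Type) →ₗ[k] (I →₀ A) :=
  Rep.coinvariantsTensorFreeToFinsupp A I

theorem psiK_single [DecidableEq I] (A : Rep.{0} k G) (a : A) (i : I) (g : G) (r : k) :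
    psiK A I (Rep.coinvariantsTensorMk A (Rep.free k G I) a
      (Finsupp.single i (MonoidAlgebra.single g r))) = Finsupp.single i (r • A.ρ g⁻¹ a) :=
  Rep.coinvariantsTensorFreeToFinsupp_mk_tmul_single A a i g r

theorem psiK_injective [DecidableEq I] (A : Rep.{0} k G) : Function.Injective (psiK A I) :=
  (Rep.coinvariantsTensorFreeLEquiv A I).injective

theorem exists_sumK (A B : Rep.{0} k G)
    (v : (((Rep.coinvariantsTensor k G).obj A).obj B : Type)) :
    ∃ (n : ℕ) (w : Fin n → A) (p : Fin n → B), v = ∑ s, Rep.coinvariantsTensorMk A B (w s) (p s) := by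
  obtain ⟨t, rfl⟩ := Representation.Coinvariants.mk_surjective (A.ρ.tprod B.ρ) v
  induction t using TensorProduct.induction_on with
  | zero => exact ⟨0, Fin.elim0, Fin.elim0, by simp⟩
  | tmul a b => exact ⟨1, fun _ => a, fun _ => b, by simp⟩
  | add x y hx hy =>
    obtain ⟨n, w, p, h⟩ := hx
    obtain ⟨m, w', p', h'⟩ := hy
    refine ⟨n + m, Fin.append w w', Fin.append p p', ?_⟩
    rw [map_add, h, h', Fin.sum_univ_add]
    simp only [Fin.append_left, Fin.append_right]

end Generic

/-- the additive maps of a representation. -/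
def rh (A : Rep.{0} ℤ G) (g : G) : A →+ A := (A.ρ g).toAddMonoidHom

/-- the coordinates of an elementary tensor. -/
theorem coord_mk [DecidableEq I] (A : Rep.{0} ℤ G) (a : A) (y : I →₀ MonoidAlgebra ℤ G) (i : I) :
    psiK A I (Rep.coinvariantsTensorMk A (Rep.free ℤ G I) a y) i = ap (rh A) (y i).coeff a := by
  induction y using Finsupp.induction_linear with
  | zero =>
    rw [map_zero, map_zero, Finsupp.zero_apply, Finsupp.zero_apply, MonoidAlgebra.coeff_zero,
      map_zero, AddMonoidHom.zero_apply]
  | add y z hy hz =>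
    rw [map_add, map_add, Finsupp.add_apply, hy, hz, Finsupp.add_apply,
      MonoidAlgebra.coeff_add, map_add, AddMonoidHom.add_apply]
  | single j p =>
    induction p using MonoidAlgebra.induction_linear with
    | zero =>
      rw [Finsupp.single_zero, map_zero, map_zero, Finsupp.zero_apply, Finsupp.zero_apply,
        MonoidAlgebra.coeff_zero, map_zero, AddMonoidHom.zero_apply]
    | add p q hp hq =>
      rw [Finsupp.single_add, map_add, map_add, Finsupp.add_apply, hp, hq,
        Finsupp.add_apply, MonoidAlgebra.coeff_add, map_add, AddMonoidHom.add_apply]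
    | single g n =>
      rw [psiK_single]
      by_cases h : j = i
      · subst h
        rw [Finsupp.single_eq_same, Finsupp.single_eq_same, MonoidAlgebra.coeff_single, ap_single]
        exact int_smul_eq_zsmul _ _ _
      · rw [Finsupp.single_eq_of_ne' h, Finsupp.single_eq_of_ne' h, MonoidAlgebra.coeff_zero,
          map_zero, AddMonoidHom.zero_apply]

/-- the class of `a ⊗ b` only depends on coefficients. -/
theorem mk_free [Fintype J] (A : Rep.{0} ℤ G) (a : A) (y : J →₀ MonoidAlgebra ℤ G) :
    Rep.coinvariantsTensorMk A (Rep.free ℤ G J) a y =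
      ∑ j, Rep.coinvariantsTensorMk A (Rep.free ℤ G J) (ap (rh A) (y j).coeff a) (bs G j) := by
  classical
  refine psiK_injective A ?_
  refine Finsupp.ext fun i => ?_
  rw [coord_mk, map_sum, Finsupp.finsetSum_apply, Finset.sum_eq_single i]
  · rw [coord_mk, bs, Finsupp.single_eq_same, MonoidAlgebra.coeff_single, ap_single, one_smul,
      inv_one]
    show _ = A.ρ 1 _
    rw [map_one]
    rfl
  · intro j _ hj
    rw [coord_mk, bs, Finsupp.single_eq_of_ne' hj, MonoidAlgebra.coeff_zero, map_zero,
      AddMonoidHom.zero_apply]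
  · intro h
    exact absurd (Finset.mem_univ i) h

/-- the coordinates of an element of the tensor product with a free module. -/
theorem exists_coord (A : Rep.{0} ℤ G) : ∃ ψ : (((Rep.coinvariantsTensor ℤ G).obj A).obj
    (Rep.free ℤ G I) : Type) →+ (I → A), ∀ (a : A) (y : I →₀ MonoidAlgebra ℤ G) (i : I),
      ψ (Rep.coinvariantsTensorMk A (Rep.free ℤ G I) a y) i = ap (rh A) (y i).coeff a := by
  classical
  exact ⟨(Finsupp.coeFnAddHom (ι := I) (M := A)).comp (psiK A I).toAddMonoidHom,
    fun a y i => coord_mk A a y i⟩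

/-- every element of the tensor product is a sum of elementary tensors. -/
theorem exists_sum (A B : Rep.{0} ℤ G)
    (v : (((Rep.coinvariantsTensor ℤ G).obj A).obj B : Type)) :
    ∃ (n : ℕ) (w : Fin n → A) (p : Fin n → B), v = ∑ s, Rep.coinvariantsTensorMk A B (w s) (p s) :=
  exists_sumK A B v

end Pool.Agent.LibFi47.HX2
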