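import Pool.Agent.LibFi47.HX1
import Pool.Agent.LibFi47.HX2

set_option autoImplicit false

namespace Pool.Agent.LibFi47.HX3

open Pool.Agent.LibFi47.HX1 Pool.Agent.LibFi47.HX2
open Pool.Agent.LibFi47 Pool.Agent.LibRD47 Pool.Agent.LibQF83 CategoryTheory

variable {G I J : Type} [Group G]

/-- the tensor functor on elementary tensors. -/
lemma map_mk (A : Rep.{0} ℤ G) {B B' : Rep.{0} ℤ G} (f : B ⟶ B') (a : A) (b : B) :
    ((Rep.coinvariantsTensor ℤ G).obj A).map f (Rep.coinvariantsTensorMk A B a b) =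
      Rep.coinvariantsTensorMk A B' a (f.hom b) := rfl

lemma bs_coeff_same (i : I) : ((bs G i : I →₀ MonoidAlgebra ℤ G) i).coeff =
    Finsupp.single (1 : G) (1 : ℤ) := by
  rw [bs, Finsupp.single_eq_same]
  rfl

lemma bs_coeff_ne {i i' : I} (h : i ≠ i') : ((bs G i : I →₀ MonoidAlgebra ℤ G) i').coeff = 0 := by
  rw [bs, Finsupp.single_eq_of_ne h.symm]
  rfl

/-- the cycles with coefficients in `A` are combinations of integral cycles. -/
theorem hc_of [Fintype I] [Fintype J] (A : Rep.{0} ℤ G)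
    (P : ProjectiveResolution (Rep.trivial ℤ G ℤ)) (m : ℕ)
    (e : P.complex.X (m + 1) ≅ Rep.free ℤ G I) (e' : P.complex.X m ≅ Rep.free ℤ G J)
    (h : ¬ Nontrivial (groupHomology A (m + 1))) : HC (rh A) (bdyH P m e e') := by
  classical
  intro x hx
  let F := (Rep.coinvariantsTensor ℤ G).obj A
  let u0 : F.obj (Rep.free ℤ G I) := ∑ i, Rep.coinvariantsTensorMk A (Rep.free ℤ G I) (x i) (bs G i)
  let u : F.obj (P.complex.X (m + 1)) := F.map e.inv u0
  have hu1 : F.map e.hom u = u0 := by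
    show (F.map e.inv ≫ F.map e.hom) u0 = u0
    rw [← F.map_comp, e.inv_hom_id, F.map_id]
    rfl
  have h1 : F.map e'.hom (F.map (P.complex.d (m + 1) m) u) = 0 := by
    have h2 : F.map e'.hom (F.map (P.complex.d (m + 1) m) u) =
        F.map (e.inv ≫ P.complex.d (m + 1) m ≫ e'.hom) u0 := by
      rw [F.map_comp, F.map_comp]
      rfl
    rw [h2]
    show F.map (e.inv ≫ P.complex.d (m + 1) m ≫ e'.hom) (∑ i,
      Rep.coinvariantsTensorMk A (Rep.free ℤ G I) (x i) (bs G i)) = 0
    rw [map_sum]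
    have h3 : ∀ i, F.map (e.inv ≫ P.complex.d (m + 1) m ≫ e'.hom)
        (Rep.coinvariantsTensorMk A (Rep.free ℤ G I) (x i) (bs G i)) =
        ∑ j, Rep.coinvariantsTensorMk A (Rep.free ℤ G J)
          (ap (rh A) (bdyH P m e e' (bs G i) j).coeff (x i)) (bs G j) := by
      intro i
      rw [map_mk, ← mk_free]
      rfl
    rw [Finset.sum_congr rfl fun i _ => h3 i, Finset.sum_comm]
    refine Finset.sum_eq_zero fun j _ => ?_
    have h4 : ∑ i, Rep.coinvariantsTensorMk A (Rep.free ℤ G J)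
        (ap (rh A) (bdyH P m e e' (bs G i) j).coeff (x i)) (bs G j) =
        Rep.coinvariantsTensorMk A (Rep.free ℤ G J)
          (∑ i, ap (rh A) (bdyH P m e e' (bs G i) j).coeff (x i)) (bs G j) := by
      rw [map_sum, LinearMap.sum_apply]
    rw [h4, hx j, map_zero, LinearMap.zero_apply]
  have h5 : F.map (P.complex.d (m + 1) m) u = 0 := by
    have h6 : F.map e'.inv (F.map e'.hom (F.map (P.complex.d (m + 1) m) u)) =
        F.map (P.complex.d (m + 1) m) u := by
      show (F.map e'.hom ≫ F.map e'.inv) (F.map (P.complex.d (m + 1) m) u) = _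
      rw [← F.map_comp, e'.hom_inv_id, F.map_id]
      rfl
    rw [← h6, h1, map_zero]
  obtain ⟨v, hv⟩ := tens_exact P m h u h5
  obtain ⟨n, w, p, hp⟩ := exists_sum A (P.complex.X (m + 1 + 1)) v
  obtain ⟨ψ, hψ⟩ := exists_coord (I := I) A
  refine ⟨n, fun s => e.hom.hom ((P.complex.d (m + 1 + 1) (m + 1)).hom (p s)), w, fun s => ?_,
    fun i => ?_⟩
  · show (e.inv ≫ P.complex.d (m + 1) m ≫ e'.hom).hom (e.hom.hom
      ((P.complex.d (m + 1 + 1) (m + 1)).hom (p s))) = 0
    have h7 : (e.inv ≫ P.complex.d (m + 1) m ≫ e'.hom).hom (e.hom.hom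
        ((P.complex.d (m + 1 + 1) (m + 1)).hom (p s))) =
        (P.complex.d (m + 1 + 1) (m + 1) ≫ e.hom ≫ e.inv ≫ P.complex.d (m + 1) m ≫ e'.hom).hom
          (p s) := rfl
    rw [h7, e.hom_inv_id_assoc, P.complex.d_comp_d_assoc, Limits.zero_comp]
    rfl
  · have h8 : u0 = ∑ s, Rep.coinvariantsTensorMk A (Rep.free ℤ G I) (w s)
        (e.hom.hom ((P.complex.d (m + 1 + 1) (m + 1)).hom (p s))) := by
      rw [← hu1, ← hv, hp]
      show F.map e.hom (F.map (P.complex.d (m + 1 + 1) (m + 1)) (∑ s, _)) = _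
      rw [map_sum, map_sum]
      rfl
    have h9 : ψ u0 i = x i := by
      show ψ (∑ i, Rep.coinvariantsTensorMk A (Rep.free ℤ G I) (x i) (bs G i)) i = x i
      rw [map_sum, Finset.sum_apply, Finset.sum_eq_single i]
      · rw [hψ, bs_coeff_same, ap_single, one_smul]
        show A.ρ 1⁻¹ (x i) = x i
        rw [inv_one, map_one]
        rfl
      · intro i' _ hi
        rw [hψ, bs_coeff_ne hi, map_zero]
        rfl
      · intro hi
        exact absurd (Finset.mem_univ i) hi
    rw [← h9, h8, map_sum, Finset.sum_apply]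
    exact Finset.sum_congr rfl fun s _ => hψ _ _ _

/-- the modules of sequences. -/
theorem hc_RA [Fintype I] [Fintype J] {B : Type} [Group B] (c : CE G B) (A : AddSubgroup ℝ)
    (P : ProjectiveResolution (Rep.trivial ℤ G ℤ)) (m : ℕ)
    (e : P.complex.X (m + 1) ≅ Rep.free ℤ G I) (e' : P.complex.X m ≅ Rep.free ℤ G J)
    (h : ¬ Nontrivial (groupHomology (RA c A) (m + 1))) : HC (TM c A) (bdyH P m e e') :=
  hc_of (RA c A) P m e e' h

end Pool.Agent.LibFi47.HX3
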