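import Pool.Agent.LibRD47.RV1

/-
Row KA. rcob1: as rcob2 in LibRD47/RA2.lean, with `coboundary_of_trivial (lam G) hfree h0 h1` (LibZIS/Pairing.lean) instead of coboundary2_of_trivial (see also
LibQF83/Dom.lean dcob1 for the transfer between sequences and classes). rreal1: real part, as rreal2 in LibRD47/RV1.lean. rvan1: as van1 in LibQF83/Van.lean, with
`rcob1` in the place of dcob1 (triv c) and `rinv x0 h0` (RA2) in the place of `dinv hB x0 h0`; the integral values are given as real numbers here (hi), as in rvan2 (RV1).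
-/

set_option autoImplicit false

namespace Pool.Agent.LibFi47.KA

open Pool.Agent.LibRD47.RA2
open Pool.Agent.LibZIS Pool.Agent.LibCod83 Pool.Agent.LibQF83 Pool.Agent.LibRD47 Filter Topology

universe v

variable {G B : Type} [Group G] [Group B] {c : CE G B}

variable {E : Type v} [TopologicalSpace E] [PathConnectedSpace E]
  [MulAction G E] [ContinuousConstSMul G E]

/-- approximate one-cocycles are approximate coboundaries. -/
theorem rcob1 (hfree : ∀ (g : G) (e : E), g • e = e → g = 1)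
    (h0 : ¬ Nontrivial (Hgy (lam G) E 0)) (h1 : ¬ Nontrivial (Hgy (lam G) E 1))
    (n : G → ℕ → G → ℂ) (hn : ∀ g, DL c (n g))
    (hc : ∀ g h, DN c (fun r x => n (g * h) r x - (n g r x + n h r (g⁻¹ * x)))) :
    ∃ v : ℕ → G → ℂ, DL c v ∧ ∀ g, DN c (fun r x => n g r x - (v r (g⁻¹ * x) - v r x)) := by
  choose b hb e using fun g => (hn g).exists_loc
  have hbc : ∀ g h, Nul (b (g * h) - (b g + trB g (b h))) := by
    intro g h
    refine nul_of_dn (hc g h) fun r x => ?_
    have h2 : (b (g * h) - (b g + trB g (b h))) r x =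
      b (g * h) r x - (b g r x + b h r (g⁻¹ * x)) := rfl
    rw [h2, ← e, ← e, ← e]
    ring
  obtain ⟨R, hR⟩ := exists_rep_triv c
  let _ : Module (Cr G) (V c) := Module.compHom (V c) R
  have hsm : ∀ (g : G) (u : BB G) (hu : Loc c u), lam G g • cl c u hu =
      cl c (trB g u) (hu.trB c g) := by
    intro g u hu
    have h3 : lam G g • cl c u hu = R (lam G g) (cl c u hu) := rfl
    rw [h3, hR]
  obtain ⟨v0, hv0⟩ := coboundary_of_trivial (lam G) hfree h0 h1
    (fun g => cl c (b g) (hb g)) (fun g h => by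
      rw [hsm, cl_add, cl_eq_iff']
      exact hbc g h)
  obtain ⟨v, hv, hw'⟩ := cl_surj c v0
  have hv' : ∀ g, Nul (b g - (trB g v - v)) := by
    intro g
    have h3 := hv0 g
    rw [← hw', hsm, cl_sub, cl_eq_iff'] at h3
    exact h3
  refine ⟨fun r x => ((√(c.a r) : ℝ) : ℂ) * v r x, DL.of_loc hv, fun g => ?_⟩
  have h3 := DN.of_nul (c := c) (hv' g)
  have h4 : (fun r x => ((√(c.a r) : ℝ) : ℂ) * (b g - (trB g v - v)) r x) =
      fun r x => n g r x - (((√(c.a r) : ℝ) : ℂ) * v r (g⁻¹ * x) -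
        ((√(c.a r) : ℝ) : ℂ) * v r x) := by
    funext r x
    have h2 : (b g - (trB g v - v)) r x = b g r x - (v r (g⁻¹ * x) - v r x) := rfl
    rw [h2, ← e]
    ring
  rw [h4] at h3
  exact h3

/-- real one-cocycles. -/
theorem rreal1 (hfree : ∀ (g : G) (e : E), g • e = e → g = 1)
    (h0 : ¬ Nontrivial (Hgy (lam G) E 0)) (h1 : ¬ Nontrivial (Hgy (lam G) E 1))
    (u : G → ℕ → G → ℝ) (hu : ∀ g, DL c (u g))
    (huc : ∀ g h, DN c (fun r x => u (g * h) r x - (u g r x + u h r (g⁻¹ * x)))) :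
    ∃ m : ℕ → G → ℝ, DL c m ∧ ∀ g, DN c (fun r x => u g r x - (m r (g⁻¹ * x) - m r x)) := by
  obtain ⟨v, hv, hv'⟩ := rcob1 hfree h0 h1
    (fun g r x => ((u g r x : ℝ) : ℂ))
    (fun g => (hu g).of_le 1 fun r x => by
      rw [Complex.norm_real, one_mul])
    (fun g h => (huc g h).of_le 1 fun r x => by
      rw [one_mul, ← Complex.norm_real]
      refine le_of_eq (congrArg norm ?_)
      push_cast
      ring)
  refine ⟨fun r x => (v r x).re, hv.of_le 1 fun r x => by
    rw [one_mul]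
    exact Complex.abs_re_le_norm _, fun g => ?_⟩
  refine (hv' g).of_le 1 fun r x => ?_
  rw [one_mul]
  have h3 := Complex.abs_re_le_norm (((u g r x : ℝ) : ℂ) - (v r (g⁻¹ * x) - v r x))
  refine le_trans (le_of_eq ?_) h3
  rw [Real.norm_eq_abs]
  congr 1

/-- integral one-cocycles. -/
theorem rvan1 (hfree : ∀ (g : G) (e : E), g • e = e → g = 1)
    (h0 : ¬ Nontrivial (Hgy (lam G) E 0)) (h1 : ¬ Nontrivial (Hgy (lam G) E 1))
    (u : G → ℕ → G → ℝ) (hu : ∀ g, DL c (u g)) (hi : ∀ g r x, ∃ k : ℤ, u g r x = k)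
    (huc : ∀ g h, DN c (fun r x => u (g * h) r x - (u g r x + u h r (g⁻¹ * x)))) :
    ∃ m : ℕ → G → ℝ, DL c m ∧ (∀ r x, ∃ k : ℤ, m r x = k) ∧
      ∀ g, DN c (fun r x => u g r x - (m r (g⁻¹ * x) - m r x)) := by
  obtain ⟨x0⟩ : Nonempty E := inferInstance
  obtain ⟨β, hβl, hβ1⟩ := rreal1 hfree h0 h1 u hu huc
  -- the exponential
  have hb : DL c (fun r x => ex (β r x) - 1) := hβl.of_le (2 * Real.pi) fun r x =>
    norm_ex_sub_one _
  have hex : ∀ g r x, ‖ex (β r (g⁻¹ * x)) - ex (β r x)‖ ≤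
      2 * Real.pi * ‖u g r x - (β r (g⁻¹ * x) - β r x)‖ := by
    intro g r x
    obtain ⟨k, hk⟩ := hi g r x
    have h3 := norm_ex_sub (β r (g⁻¹ * x)) (β r x) k
    have h4 : |β r (g⁻¹ * x) - β r x - (k : ℝ)| = ‖u g r x - (β r (g⁻¹ * x) - β r x)‖ := by
      rw [hk, Real.norm_eq_abs, abs_sub_comm]
    rw [← h4]
    exact h3
  have hbr : DN c (fun r x => (ex (β r x) - 1).re) := by
    refine rinv x0 h0 (hb.of_le 1 fun r x => by
      rw [one_mul]
      exact Complex.abs_re_le_norm _) fun g => ?_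
    refine (hβ1 g).of_le (2 * Real.pi) fun r x => ?_
    refine le_trans ?_ (hex g r x)
    have h5 := Complex.abs_re_le_norm (ex (β r (g⁻¹ * x)) - ex (β r x))
    refine le_trans (le_of_eq ?_) h5
    rw [Real.norm_eq_abs]
    congr 1
    simp
  have hbi : DN c (fun r x => (ex (β r x) - 1).im) := by
    refine rinv x0 h0 (hb.of_le 1 fun r x => by
      rw [one_mul]
      exact Complex.abs_im_le_norm _) fun g => ?_
    refine (hβ1 g).of_le (2 * Real.pi) fun r x => ?_
    refine le_trans ?_ (hex g r x)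
    have h5 := Complex.abs_im_le_norm (ex (β r (g⁻¹ * x)) - ex (β r x))
    refine le_trans (le_of_eq ?_) h5
    rw [Real.norm_eq_abs]
    congr 1
    simp
  have hbn : DN c (fun r x => ‖ex (β r x) - 1‖) := by
    have h3 : DN c (fun r x => |(ex (β r x) - 1).re| + |(ex (β r x) - 1).im|) :=
      (hbr.of_le 1 fun r x => by rw [one_mul, Real.norm_eq_abs, abs_abs, Real.norm_eq_abs]).add
        (hbi.of_le 1 fun r x => by rw [one_mul, Real.norm_eq_abs, abs_abs, Real.norm_eq_abs])
    refine h3.of_le 1 fun r x => ?_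
    rw [one_mul, norm_norm, Real.norm_eq_abs, abs_of_nonneg (by positivity)]
    exact Complex.norm_le_abs_re_add_abs_im _
  -- the logarithm
  choose l hl hl' using fun r x => exists_log (ex (β r x)) (norm_ex _)
  have hln : DN c l := hbn.of_le 1 fun r x => by
    rw [one_mul, norm_norm, Real.norm_eq_abs]
    exact hl' r x
  refine ⟨fun r x => β r x - l r x, hβl.sub hln.dl, fun r x => ?_, fun g => ?_⟩
  · refine exists_int_of_ex_eq_one _ ?_
    show ex (β r x - l r x) = 1
    rw [sub_eq_add_neg, ex_add, ex_neg, hl]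
    apply mul_inv_cancel₀
    rw [← norm_ne_zero_iff, norm_ex]
    exact one_ne_zero
  · have h3 := (hβ1 g).add ((hln.trans g).sub hln)
    refine h3.of_le 1 fun r x => ?_
    rw [one_mul]
    refine le_of_eq (congrArg norm ?_)
    ring

end Pool.Agent.LibFi47.KA
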