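import Pool.Agent.LibRD47.RV1

/-
Row KB. coh1_of: as coh2_of in LibRD47/RM2.lean, with groupCohomology.H1_induction_on, H1π_eq_zero_iff, mem_cocycles₁_iff (see LibQF83/Coh.lean coh1).
coh0: as LibQF83/Coh.lean coh0: groupCohomology.H0_induction_on; an invariant class qm c A u satisfies DN c (fun r x => u.1 r (g⁻¹ * x) - u.1 r x) for all g, hence
DN c u.1 by `rinv x0 h0` (LibRD47/RA2.lean), i.e. qm c A u = 0.
-/

set_option autoImplicit false

namespace Pool.Agent.LibFi47.KB

open Pool.Agent.LibRD47.RA2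
open Pool.Agent.LibZIS Pool.Agent.LibCod83 Pool.Agent.LibQF83 Pool.Agent.LibRD47 Filter Topology

universe v

variable {G B : Type} [Group G] [Group B] {c : CE G B}

/-- the first cohomology of the module vanishes if the approximate one-cocycles are
coboundaries. -/
theorem coh1_of (A : AddSubgroup ℝ)
    (h : ∀ u : G → ℕ → G → ℝ, (∀ g, DL c (u g)) → (∀ g r x, u g r x ∈ A) →
      (∀ g h, DN c (fun r x => u (g * h) r x - (u g r x + u h r (g⁻¹ * x)))) →
      ∃ m : ℕ → G → ℝ, DL c m ∧ (∀ r x, m r x ∈ A) ∧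
        ∀ g, DN c (fun r x => u g r x - (m r (g⁻¹ * x) - m r x))) :
    ¬ Nontrivial (groupCohomology (RA c A) 1) := by
  rw [not_nontrivial_iff_subsingleton]
  have key : ∀ x : groupCohomology (RA c A) 1, x = 0 := by
    intro x
    refine groupCohomology.H1_induction_on (A := RA c A) (C := fun x => x = 0) x fun f => ?_
    rw [groupCohomology.H1π_eq_zero_iff]
    have hf : ∀ g h : G, f.1 (g * h) = repA c A g (f.1 h) + f.1 g :=
      (groupCohomology.mem_cocycles₁_iff f.1).1 f.2
    choose u hu using fun g => qm_surj A (f.1 g)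
    obtain ⟨m, hm1, hm2, hm3⟩ := h (fun g => (u g).1) (fun g => (u g).2.1)
      (fun g => (u g).2.2) (fun g h => by
        have h3 := hf g h
        rw [← hu, ← hu, ← hu, repA_qm, ← map_add, ← sub_eq_zero, ← map_sub, qm_eq_zero] at h3
        have h4 : DN c (fun r x => (u (g * h)).1 r x - ((u h).1 r (g⁻¹ * x) + (u g).1 r x)) := h3
        refine h4.of_le 1 fun r x => ?_
        rw [one_mul, add_comm ((u g).1 r x)])
    refine ⟨qm c A ⟨m, hm1, hm2⟩, ?_⟩
    funext g
    show repA c A g (qm c A ⟨m, hm1, hm2⟩) - qm c A ⟨m, hm1, hm2⟩ = f.1 g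
    rw [← hu, repA_qm, ← map_sub, ← sub_eq_zero, ← neg_eq_zero, neg_sub, ← map_sub, qm_eq_zero]
    exact hm3 g
  exact ⟨fun a b => by rw [key a, key b]⟩

variable {E : Type v} [TopologicalSpace E] [PathConnectedSpace E]
  [MulAction G E] [ContinuousConstSMul G E]

/-- degree zero. -/
theorem coh0 (A : AddSubgroup ℝ) (h0 : ¬ Nontrivial (Hgy (lam G) E 0)) :
    ¬ Nontrivial (groupCohomology (RA c A) 0) := by
  rw [not_nontrivial_iff_subsingleton]
  obtain ⟨x0⟩ : Nonempty E := inferInstance
  have key : ∀ x : groupCohomology (RA c A) 0, x = 0 := by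
    intro x
    refine groupCohomology.H0_induction_on (RA c A) (C := fun x => x = 0) x fun v => ?_
    have hv : v = 0 := by
      apply Subtype.ext
      obtain ⟨u, hu⟩ := qm_surj A v.1
      have h1 : ∀ g : G, repA c A g v.1 = v.1 := v.2
      show (v.1 : MA' c A) = 0
      rw [← hu, qm_eq_zero]
      refine rinv x0 h0 u.2.1 fun g => ?_
      have h2 := h1 g
      rw [← hu, repA_qm, ← sub_eq_zero, ← map_sub, qm_eq_zero] at h2
      exact h2
    rw [hv, map_zero]
  exact ⟨fun a b => by rw [key a, key b]⟩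

end Pool.Agent.LibFi47.KB
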