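import Pool.Agent.LibFi47.FM
import Pool.Agent.LibFi47.HX3
import Pool.Agent.LibFi47.KA
import Pool.Agent.LibFi47.KB
import Pool.Agent.LibRD47.Elem

/-!
Filling inequalities and the spectrum at zero.
-/

set_option autoImplicit false

namespace Pool.Agent.LibFi47

open Pool.Agent.LibZIS Pool.Agent.LibCod83 Pool.Agent.LibQF83 Pool.Agent.LibDehn83
open Pool.Agent.LibRD47 Filter Topology CategoryTheory
open FM HX3 KA KB

universe v

variable {G : Type} [Group G] {E : Type v} [TopologicalSpace E] [PathConnectedSpace E]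
  [MulAction G E] [ContinuousConstSMul G E]

/-- the cohomology of the real sequences in degrees at most two. -/
theorem coh_real (hfree : ∀ (g : G) (e : E), g • e = e → g = 1) (hE : H1Zero E) (k : ℕ)
    (hk : k ≤ 2) (h : ∀ i, i ≤ k → ¬ Nontrivial (Hgy (lam G) E i)) {B : Type} [Group B]
    (c : CE G B) : ¬ Nontrivial (groupCohomology (RA c ⊤) k) := by
  interval_cases k
  · exact coh0 (E := E) ⊤ (h 0 le_rfl)
  · refine coh1_of ⊤ fun u hu _ huc => ?_
    obtain ⟨m, e1, e2⟩ := rreal1 hfree (h 0 (by norm_num)) (h 1 le_rfl) u hu huc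
    exact ⟨m, e1, fun r x => AddSubgroup.mem_top _, e2⟩
  · exact coh2_real hfree hE (h 0 (by norm_num)) (h 1 (by norm_num)) (h 2 le_rfl)

/-- the cohomology of the integral sequences in degrees at most two. -/
theorem coh_int (hfree : ∀ (g : G) (e : E), g • e = e → g = 1) (hE : H1Zero E) (k : ℕ)
    (hk : k ≤ 2) (h : ∀ i, i ≤ k → ¬ Nontrivial (Hgy (lam G) E i)) {B : Type} [Group B]
    (c : CE G B) (hT : k = 2 → TV c) : ¬ Nontrivial (groupCohomology (RA c ZI) k) := by
  interval_cases k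
  · exact coh0 (E := E) ZI (h 0 le_rfl)
  · refine coh1_of ZI fun u hu hi huc => ?_
    obtain ⟨m, e1, e2, e3⟩ := rvan1 hfree (h 0 (by norm_num)) (h 1 le_rfl) u hu
      (fun g r x => (mem_ZI _).1 (hi g r x)) huc
    exact ⟨m, e1, fun r x => (mem_ZI _).2 (e2 r x), e3⟩
  · exact coh2_int (hT rfl) hfree hE (h 0 (by norm_num)) (h 1 (by norm_num)) (h 2 le_rfl)

/-- the main theorem. -/
theorem main (hfree : ∀ (g : G) (e : E), g • e = e → g = 1) (hE : H1Zero E)
    (k m : ℕ) (hk : k ≤ 2)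
    (hG : ∀ M : Rep.{0} ℤ G, Nonempty (groupCohomology M k ≅ groupHomology M (m + 1)))
    (hT : k = 2 → ∃ S : Finset G, Sys S ∧ RD G)
    (P : ProjectiveResolution (Rep.trivial ℤ G ℤ)) {I J : Type} [Finite I] [Finite J]
    (e : P.complex.X (m + 1) ≅ Rep.free ℤ G I) (e' : P.complex.X m ≅ Rep.free ℤ G J)
    (hlin : ¬ LinFill P m e e') :
    ∃ i, i ≤ k ∧ Nontrivial (Hgy (lam G) E i) := by
  classical
  by_contra hcon
  push Not at hcon
  have hz : ∀ i, i ≤ k → ¬ Nontrivial (Hgy (lam G) E i) := fun i hi => by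
    rw [not_nontrivial_iff_subsingleton]
    exact hcon i hi
  have hd : ∀ M : Rep.{0} ℤ G, ¬ Nontrivial (groupCohomology M k) →
      ¬ Nontrivial (groupHomology M (m + 1)) := by
    intro M hM hM'
    obtain ⟨e⟩ := hG M
    have e' := (CategoryTheory.forget (ModuleCat ℤ)).mapIso e
    exact hM (e'.toEquiv.nontrivial)
  have _ := Fintype.ofFinite I
  have _ := Fintype.ofFinite J
  apply hlin
  refine lin_of (bdyH P m e e') (eqv_bdyH P m e e')
    (hc_RA _ _ P m e e' (hd _ (coh_real hfree hE k hk hz _))) fun a ha =>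
    hc_RA _ _ P m e e' (hd _ (coh_int hfree hE k hk hz _ ?_))
  intro h2
  obtain ⟨S, hS, hRD⟩ := hT h2
  exact tv_main hS hfree (hz 0 (by omega)) (hz 1 (by omega)) (Or.inl (subRD_of hRD)) a ha

end Pool.Agent.LibFi47
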