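import Pool.Agent.LibFi47.Defs
import Pool.Agent.LibRD47.RF1
import Pool.Agent.LibRD47.RF2

/-!
Chains of a free resolution and their coefficient functions: definitions.
-/

set_option autoImplicit false

namespace Pool.Agent.LibFi47

open Pool.Agent.LibZIS Pool.Agent.LibCod83 Pool.Agent.LibQF83 Pool.Agent.LibDehn83
open Pool.Agent.LibRD47 Filter Topology CategoryTheory

variable {G I J : Type} [Group G]

/-- the basis. -/
noncomputable def bs (G : Type) [Group G] {I : Type} (i : I) : I →₀ MonoidAlgebra ℤ G :=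
  Finsupp.single i (MonoidAlgebra.single 1 1)

/-- the coefficient functions of an element of the free module. -/
noncomputable def cf (x : I →₀ MonoidAlgebra ℤ G) (i : I) (h : G) : ℝ := (((x i).coeff h⁻¹ : ℤ) : ℝ)

/-- the additive map given by an element of the group ring. -/
noncomputable def ap {A : Type} [AddCommGroup A] (τ : G → A →+ A) : (G →₀ ℤ) →+ (A →+ A) :=
  Finsupp.liftAddHom fun g => zmultiplesHom (A →+ A) (τ g⁻¹)

lemma ap_single {A : Type} [AddCommGroup A] (τ : G → A →+ A) (g : G) (n : ℤ) (a : A) :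
    ap τ (Finsupp.single g n) a = n • τ g⁻¹ a := by
  rw [ap, Finsupp.liftAddHom_apply_single]
  rfl

lemma ap_apply {A : Type} [AddCommGroup A] (τ : G → A →+ A) (q : G →₀ ℤ) (a : A) :
    ap τ q a = ∑ g ∈ q.support, q g • τ g⁻¹ a := by
  rw [ap, Finsupp.liftAddHom_apply, Finsupp.sum, AddMonoidHom.finsetSum_apply]
  rfl

/-- an equivariant map of free modules. -/
def Eqv (D : (I →₀ MonoidAlgebra ℤ G) →+ (J →₀ MonoidAlgebra ℤ G)) : Prop :=
  ∀ (g : G) (x : I →₀ MonoidAlgebra ℤ G),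
    D (Representation.free ℤ G I g x) = Representation.free ℤ G J g (D x)

/-- the cycles with coefficients in `A` are combinations of integral cycles. -/
def HC {A : Type} [AddCommGroup A] (τ : G → A →+ A) [Fintype I]
    (D : (I →₀ MonoidAlgebra ℤ G) →+ (J →₀ MonoidAlgebra ℤ G)) : Prop :=
  ∀ x : I → A, (∀ j, ∑ i, ap τ (D (bs G i) j).coeff (x i) = 0) →
    ∃ (n : ℕ) (k : Fin n → (I →₀ MonoidAlgebra ℤ G)) (w : Fin n → A), (∀ s, D (k s) = 0) ∧
      ∀ i, x i = ∑ s, ap τ (k s i).coeff (w s)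

/-- the boundary as an additive map. -/
noncomputable def bdyH (P : ProjectiveResolution (Rep.trivial ℤ G ℤ)) (m : ℕ)
    (e : P.complex.X (m + 1) ≅ Rep.free ℤ G I) (e' : P.complex.X m ≅ Rep.free ℤ G J) :
    (I →₀ MonoidAlgebra ℤ G) →+ (J →₀ MonoidAlgebra ℤ G) where
  toFun := bdy P m e e'
  map_zero' := map_zero (e.inv ≫ P.complex.d (m + 1) m ≫ e'.hom).hom
  map_add' := map_add (e.inv ≫ P.complex.d (m + 1) m ≫ e'.hom).hom

lemma bdyH_apply (P : ProjectiveResolution (Rep.trivial ℤ G ℤ)) (m : ℕ)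
    (e : P.complex.X (m + 1) ≅ Rep.free ℤ G I) (e' : P.complex.X m ≅ Rep.free ℤ G J)
    (x : I →₀ MonoidAlgebra ℤ G) : bdyH P m e e' x = bdy P m e e' x := rfl

lemma eqv_bdyH (P : ProjectiveResolution (Rep.trivial ℤ G ℤ)) (m : ℕ)
    (e : P.complex.X (m + 1) ≅ Rep.free ℤ G I) (e' : P.complex.X m ≅ Rep.free ℤ G J) :
    Eqv (bdyH P m e e') := fun g x =>
  Representation.IntertwiningMap.isIntertwining _ _ (e.inv ≫ P.complex.d (m + 1) m ≫ e'.hom).hom g x

end Pool.Agent.LibFi47
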