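import Pool.Agent.LibFi47.FC2

set_option autoImplicit false

namespace Pool.Agent.LibFi47.FC1

open Pool.Agent.LibZIS Pool.Agent.LibCod83 Pool.Agent.LibQF83 Pool.Agent.LibDehn83
open Pool.Agent.LibRD47 Pool.Agent.LibFi47 Filter Topology CategoryTheory
open Pool.Agent.LibFi47.FC2

variable {G I J : Type} [Group G]

lemma cf_zero (i : I) : cf (0 : I →₀ MonoidAlgebra ℤ G) i = 0 := by
  funext h
  show (((0 : G →₀ ℤ) h⁻¹ : ℤ) : ℝ) = 0
  simp

lemma cf_add' (x y : I →₀ MonoidAlgebra ℤ G) (i : I) : cf (x + y) i = cf x i + cf y i := by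
  funext h
  show ((((x + y) i).coeff h⁻¹ : ℤ) : ℝ) = (((x i).coeff h⁻¹ : ℤ) : ℝ) + (((y i).coeff h⁻¹ : ℤ) : ℝ)
  rw [Finsupp.add_apply, MonoidAlgebra.coeff_add, Finsupp.add_apply]
  push_cast
  rfl

/-- the coefficient functions of the image of a chain. -/
theorem cf_D [Fintype I] (D : (I →₀ MonoidAlgebra ℤ G) →+ (J →₀ MonoidAlgebra ℤ G)) (hD : Eqv D)
    (x : I →₀ MonoidAlgebra ℤ G) (j : J) :
    cf (D x) j = ∑ i, ap Tf (D (bs G i) j).coeff (cf x i) := by
  classical
  induction x using Finsupp.induction_linear with
  | zero =>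
    rw [map_zero, cf_zero]
    symm
    refine Finset.sum_eq_zero fun i _ => ?_
    rw [cf_zero, map_zero]
  | add x y hx hy =>
    rw [map_add, cf_add', hx, hy, ← Finset.sum_add_distrib]
    refine Finset.sum_congr rfl fun i _ => ?_
    rw [cf_add', map_add]
  | single i0 a =>
    induction a using MonoidAlgebra.induction_linear with
    | zero =>
      rw [Finsupp.single_zero, map_zero, cf_zero]
      symm
      refine Finset.sum_eq_zero fun i _ => ?_
      rw [cf_zero, map_zero]
    | add x y hx hy =>
      rw [Finsupp.single_add, map_add, cf_add', hx, hy, ← Finset.sum_add_distrib]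
      refine Finset.sum_congr rfl fun i _ => ?_
      rw [cf_add', map_add]
    | single g n =>
      have h1 : (Finsupp.single i0 (MonoidAlgebra.single g n) : I →₀ MonoidAlgebra ℤ G) =
          n • Representation.free ℤ G I g (bs G i0) := by
        rw [bs, Representation.free_single_single, mul_one, Finsupp.smul_single]
        congr 1
        rw [MonoidAlgebra.smul_single, smul_eq_mul, mul_one]
      rw [Finset.sum_eq_single i0]
      · funext h
        have h2 : cf (D (Finsupp.single i0 (MonoidAlgebra.single g n))) j h =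
            (n : ℝ) * (((D (bs G i0) j).coeff (g⁻¹ * h⁻¹) : ℤ) : ℝ) := by
          rw [h1, map_zsmul, hD]
          unfold cf
          rw [Finsupp.smul_apply]
          show ((n • (Representation.free ℤ G J g (D (bs G i0)) j).coeff h⁻¹ : ℤ) : ℝ) = _
          rw [free_coeff, smul_eq_mul]
          push_cast
          rfl
        have h3 : ∀ g' : G, ((D (bs G i0) j).coeff g' •
            Tf g'⁻¹ (cf (Finsupp.single i0 (MonoidAlgebra.single g n)) i0)) h =
            if g' = g⁻¹ * h⁻¹ then
              (n : ℝ) * (((D (bs G i0) j).coeff (g⁻¹ * h⁻¹) : ℤ) : ℝ) else 0 := by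
          intro g'
          show (D (bs G i0) j).coeff g' •
            cf (Finsupp.single i0 (MonoidAlgebra.single g n)) i0 (g'⁻¹⁻¹ * h) = _
          unfold cf
          rw [Finsupp.single_eq_same, inv_inv]
          show (D (bs G i0) j).coeff g' • (((Finsupp.single g n) (g' * h)⁻¹ : ℤ) : ℝ) = _
          split_ifs with hg
          · have h4 : (g' * h)⁻¹ = g := by
              rw [hg, inv_mul_cancel_right, inv_inv]
            rw [h4, Finsupp.single_eq_same, hg, zsmul_eq_mul, mul_comm]
          · rw [Finsupp.single_eq_of_ne, Int.cast_zero, smul_zero]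
            intro h4
            apply hg
            rw [← h4, inv_inv, mul_inv_cancel_right]
        rw [h2, ap_apply, Finset.sum_apply, Finset.sum_congr rfl fun g' _ => h3 g',
          Finset.sum_ite_eq']
        split_ifs with h5
        · rfl
        · rw [Finsupp.notMem_support_iff.1 h5, Int.cast_zero, mul_zero]
      · intro i _ hi
        have h6 : cf (Finsupp.single i0 (MonoidAlgebra.single g n)) i = 0 := by
          funext h
          unfold cf
          rw [Finsupp.single_eq_of_ne hi]
          show (((0 : G →₀ ℤ) h⁻¹ : ℤ) : ℝ) = 0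
          simp
        rw [h6, map_zero]
      · intro hi
        exact absurd (Finset.mem_univ i0) hi

end Pool.Agent.LibFi47.FC1
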