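import Pool.Agent.LibFi47.Base

set_option autoImplicit false

namespace Pool.Agent.LibFi47.FC2

open Pool.Agent.LibZIS Pool.Agent.LibCod83 Pool.Agent.LibQF83 Pool.Agent.LibDehn83
open Pool.Agent.LibRD47 Pool.Agent.LibFi47 Filter Topology CategoryTheory

variable {G I J : Type} [Group G]

lemma free_coeff (h : G) (k : I →₀ MonoidAlgebra ℤ G) (i : I) (g : G) :
    (Representation.free ℤ G I h k i).coeff g = (k i).coeff (h⁻¹ * g) := by
  classical
  induction k using Finsupp.induction_linear with
  | zero =>
    rw [map_zero]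
    rfl
  | add x y hx hy =>
    rw [map_add, Finsupp.add_apply, Finsupp.add_apply, MonoidAlgebra.coeff_add,
      MonoidAlgebra.coeff_add, Finsupp.add_apply, Finsupp.add_apply, hx, hy]
  | single i' a =>
    induction a using MonoidAlgebra.induction_linear with
    | zero =>
      rw [Finsupp.single_zero, map_zero]
      rfl
    | add x y hx hy =>
      rw [Finsupp.single_add, map_add, Finsupp.add_apply, Finsupp.add_apply,
        MonoidAlgebra.coeff_add, MonoidAlgebra.coeff_add, Finsupp.add_apply, Finsupp.add_apply,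
        hx, hy]
    | single g' n =>
      rw [Representation.free_single_single]
      by_cases hi : i' = i
      · subst hi
        rw [Finsupp.single_eq_same, Finsupp.single_eq_same]
        show (Finsupp.single (h * g') n) g = (Finsupp.single g' n) (h⁻¹ * g)
        by_cases hg : h * g' = g
        · subst hg
          rw [Finsupp.single_eq_same, inv_mul_cancel_left, Finsupp.single_eq_same]
        · rw [Finsupp.single_eq_of_ne (Ne.symm hg), Finsupp.single_eq_of_ne]
          intro h2
          exact hg (by rw [← h2, mul_inv_cancel_left])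
      · rw [Finsupp.single_eq_of_ne (Ne.symm hi), Finsupp.single_eq_of_ne (Ne.symm hi)]
        rfl

/-- a combination of the translates of a cycle is a cycle. -/
theorem exists_conv (D : (I →₀ MonoidAlgebra ℤ G) →+ (J →₀ MonoidAlgebra ℤ G)) (hD : Eqv D)
    (k : I →₀ MonoidAlgebra ℤ G) (hk : D k = 0) (n : G → ℝ) (hn : ∀ x, ∃ t : ℤ, n x = t)
    (hs : Summable fun x => n x ^ 2) :
    ∃ y : I →₀ MonoidAlgebra ℤ G, D y = 0 ∧ ∀ i, cf y i = ap Tf (k i).coeff n := by
  classical
  obtain ⟨q, hq⟩ := integral_finsupp n (by simpa only [sq_abs] using hs) hn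
  refine ⟨∑ h ∈ q.support, q h • Representation.free ℤ G I h⁻¹ k, ?_, fun i => ?_⟩
  · rw [map_sum]
    refine Finset.sum_eq_zero fun h _ => ?_
    rw [map_zsmul, hD, hk, map_zero, smul_zero]
  · funext h0
    have h1 : cf (∑ h ∈ q.support, q h • Representation.free ℤ G I h⁻¹ k) i h0 =
        ∑ h ∈ q.support, ((q h : ℤ) : ℝ) * (((k i).coeff (h * h0⁻¹) : ℤ) : ℝ) := by
      unfold cf
      rw [Finsupp.finset_sum_apply]
      have h2 : ∀ s : Finset G, (∑ h ∈ s, (q h • Representation.free ℤ G I h⁻¹ k) i).coeff h0⁻¹ =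
          ∑ h ∈ s, q h * (k i).coeff (h * h0⁻¹) := by
        intro s
        induction s using Finset.induction_on with
        | empty => rfl
        | insert a s ha ih =>
          rw [Finset.sum_insert ha, Finset.sum_insert ha, MonoidAlgebra.coeff_add,
            Finsupp.add_apply, ih]
          congr 1
          rw [Finsupp.smul_apply]
          show q a • (Representation.free ℤ G I a⁻¹ k i).coeff h0⁻¹ = _
          rw [free_coeff, inv_inv, smul_eq_mul]
      rw [h2]
      push_cast
      rfl
    rw [h1, ap_apply, Finset.sum_apply]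
    have h3 : ∀ g : G, ((k i).coeff g • Tf g⁻¹ n) h0 =
        (((k i).coeff g : ℤ) : ℝ) * ((q (g * h0) : ℤ) : ℝ) := by
      intro g
      show (k i).coeff g • n (g⁻¹⁻¹ * h0) = _
      rw [inv_inv, hq, zsmul_eq_mul]
    rw [Finset.sum_congr rfl fun g _ => h3 g]
    have h4 : ∑ h ∈ q.support, ((q h : ℤ) : ℝ) * (((k i).coeff (h * h0⁻¹) : ℤ) : ℝ) =
        ∑ h ∈ q.support ∪ (k i).coeff.support.image (· * h0),
          ((q h : ℤ) : ℝ) * (((k i).coeff (h * h0⁻¹) : ℤ) : ℝ) := by
      refine Finset.sum_subset Finset.subset_union_left fun h _ hh => ?_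
      rw [Finsupp.notMem_support_iff.1 hh, Int.cast_zero, zero_mul]
    have h5 : ∑ g ∈ (k i).coeff.support, (((k i).coeff g : ℤ) : ℝ) * ((q (g * h0) : ℤ) : ℝ) =
        ∑ h ∈ (k i).coeff.support.image (· * h0),
          ((q h : ℤ) : ℝ) * (((k i).coeff (h * h0⁻¹) : ℤ) : ℝ) := by
      rw [Finset.sum_image fun a _ b _ hab => mul_right_cancel hab]
      refine Finset.sum_congr rfl fun g _ => ?_
      rw [mul_inv_cancel_right, mul_comm]
    rw [h4, h5]
    symm
    refine Finset.sum_subset Finset.subset_union_right fun h _ hh => ?_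
    have h6 : (k i).coeff (h * h0⁻¹) = 0 := by
      by_contra h7
      exact hh (Finset.mem_image.2 ⟨h * h0⁻¹, Finsupp.mem_support_iff.2 h7,
        inv_mul_cancel_right _ _⟩)
    rw [h6, Int.cast_zero, mul_zero]

end Pool.Agent.LibFi47.FC2
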