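import Pool.Agent.LibFi47.Base

/-
Row FC3. Elementary: cf x i h = ((x i).coeff h⁻¹ : ℤ). MonoidAlgebra.coeff is additive. sqF x = ∑ i ∈ x.support, ∑ g ∈ (x i).coeff.support, ((x i).coeff g)^2.
summable_cf: finite support (summable_of_ne_finset_zero with the image of (x i).coeff.support under inverse).
sqF_eq: ∑' h, ((x i).coeff h⁻¹)^2 = ∑' g, ((x i).coeff g)^2 ((Equiv.inv G).tsum_eq) = ∑ g ∈ (x i).coeff.support, ... (tsum_eq_sum); the i outside x.support give 0.
exists_nat: squares of integers are natural numbers (Int.natAbs).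
-/

set_option autoImplicit false

namespace Pool.Agent.LibFi47.FC3

open Pool.Agent.LibZIS Pool.Agent.LibCod83 Pool.Agent.LibQF83 Pool.Agent.LibDehn83
open Pool.Agent.LibRD47 Pool.Agent.LibFi47 Filter Topology CategoryTheory

variable {G I J : Type} [Group G]

theorem cf_add (x y : I →₀ MonoidAlgebra ℤ G) (i : I) : cf (x + y) i = cf x i + cf y i := by
  funext h
  simp only [cf, Finsupp.add_apply, Pi.add_apply, MonoidAlgebra.coeff_add, Int.cast_add]

theorem cf_sub (x y : I →₀ MonoidAlgebra ℤ G) (i : I) : cf (x - y) i = cf x i - cf y i := by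
  have h := cf_add (x - y) y i
  rw [sub_add_cancel] at h
  rw [h, add_sub_cancel_right]

private theorem fc3_zero (i : I) : cf (0 : I →₀ MonoidAlgebra ℤ G) i = 0 := by
  have h := cf_add (0 : I →₀ MonoidAlgebra ℤ G) 0 i
  rw [add_zero] at h
  exact left_eq_add.1 h

theorem cf_sum {ι : Type} (s : Finset ι) (x : ι → (I →₀ MonoidAlgebra ℤ G)) (i : I) :
    cf (∑ t ∈ s, x t) i = ∑ t ∈ s, cf (x t) i := by
  classical
  induction s using Finset.induction_on with
  | empty => rw [Finset.sum_empty, Finset.sum_empty, fc3_zero]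
  | insert a s ha ih => rw [Finset.sum_insert ha, Finset.sum_insert ha, cf_add, ih]

private theorem fc3_supp (x : I →₀ MonoidAlgebra ℤ G) (i : I) :
    (Function.support fun g : G => (((x i).coeff g : ℤ) : ℝ) ^ 2) ⊆ ((x i).coeff.support : Set G) := by
  intro g hg
  rw [Function.mem_support] at hg
  rw [Finset.mem_coe, Finsupp.mem_support_iff]
  intro h0
  apply hg
  rw [h0]
  simp

private theorem fc3_summ (x : I →₀ MonoidAlgebra ℤ G) (i : I) :
    Summable fun g : G => (((x i).coeff g : ℤ) : ℝ) ^ 2 :=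
  summable_of_hasFiniteSupport (Set.Finite.subset (Finset.finite_toSet _) (fc3_supp x i))

theorem summable_cf (x : I →₀ MonoidAlgebra ℤ G) (i : I) : Summable fun h => cf x i h ^ 2 :=
  (Equiv.summable_iff (Equiv.inv G)).2 (fc3_summ x i)

private theorem fc3_tsum (x : I →₀ MonoidAlgebra ℤ G) (i : I) :
    ∑' h, cf x i h ^ 2 = ∑ g ∈ (x i).coeff.support, (((x i).coeff g : ℤ) : ℝ) ^ 2 := by
  have h1 : ∑' h, cf x i h ^ 2 = ∑' g : G, (((x i).coeff g : ℤ) : ℝ) ^ 2 :=
    (Equiv.inv G).tsum_eq (fun g : G => (((x i).coeff g : ℤ) : ℝ) ^ 2)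
  rw [h1]
  exact tsum_eq_sum' (fc3_supp x i)

theorem sqF_eq [Fintype I] (x : I →₀ MonoidAlgebra ℤ G) : sqF x = ∑ i, ∑' h, cf x i h ^ 2 := by
  classical
  unfold sqF
  rw [Finset.sum_congr rfl fun i _ => fc3_tsum x i]
  refine Finset.sum_subset (Finset.subset_univ _) fun i _ hi => ?_
  rw [Finsupp.notMem_support_iff] at hi
  rw [hi]
  simp

theorem sqF_nonneg (x : I →₀ MonoidAlgebra ℤ G) : 0 ≤ sqF x :=
  Finset.sum_nonneg fun _ _ => Finset.sum_nonneg fun _ _ => sq_nonneg _

/-- `sqF` is a natural number. -/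
theorem exists_nat (x : I →₀ MonoidAlgebra ℤ G) : ∃ n : ℕ, sqF x = n := by
  refine ⟨∑ i ∈ x.support, ∑ g ∈ (x i).coeff.support, ((x i).coeff g).natAbs ^ 2, ?_⟩
  unfold sqF
  push_cast
  refine Finset.sum_congr rfl fun i _ => Finset.sum_congr rfl fun g _ => ?_
  rw [Nat.cast_natAbs, Int.cast_abs, sq_abs]

end Pool.Agent.LibFi47.FC3
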