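import Pool.Agent.LibFi47.Base

set_option autoImplicit false

namespace Pool.Agent.LibFi47.FL

open Pool.Agent.LibZIS Pool.Agent.LibCod83 Pool.Agent.LibQF83 Pool.Agent.LibDehn83
open Pool.Agent.LibRD47 Pool.Agent.LibFi47 Filter Topology CategoryTheory

variable {G I J : Type} [Group G] {B : Type} [Group B] {c : CE G B}

/-- a homomorphism which commutes with the actions. -/
theorem ap_comm {A A' : Type} [AddCommGroup A] [AddCommGroup A'] (τ : G → A →+ A)
    (τ' : G → A' →+ A') (φ : A →+ A') (h : ∀ g a, φ (τ g a) = τ' g (φ a)) (q : G →₀ ℤ) (a : A) :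
    φ (ap τ q a) = ap τ' q (φ a) := by
  rw [ap_apply, ap_apply, map_sum]
  refine Finset.sum_congr rfl fun g _ => ?_
  rw [map_zsmul, h]

/-- evaluation of the sequences. -/
def evA (c : CE G B) (A : AddSubgroup ℝ) (r : ℕ) : ZA c A →+ (G → ℝ) where
  toFun n := n.1 r
  map_zero' := rfl
  map_add' _ _ := rfl

/-- the values of the image of a sequence. -/
theorem ap_TZ_val (A : AddSubgroup ℝ) (q : G →₀ ℤ) (n : ZA c A) (r : ℕ) :
    (ap (TZ c A) q n).1 r = ap Tf q (n.1 r) :=
  ap_comm (TZ c A) Tf (evA c A r) (fun g a => TZ_val A g a r) q n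

/-- approximate cycles with coefficients in the sequences are approximate combinations of
integral cycles. -/
theorem lift_HC [Fintype I] (A : AddSubgroup ℝ)
    (D : (I →₀ MonoidAlgebra ℤ G) →+ (J →₀ MonoidAlgebra ℤ G)) (h : HC (TM c A) D)
    (x : I → ZA c A) (hx : ∀ j, DN c (∑ i, ap (TZ c A) (D (bs G i) j).coeff (x i)).1) :
    ∃ (n : ℕ) (k : Fin n → (I →₀ MonoidAlgebra ℤ G)) (w : Fin n → ZA c A),
      (∀ s, D (k s) = 0) ∧
        ∀ i, DN c ((x i).1 - (∑ s, ap (TZ c A) (k s i).coeff (w s)).1) := by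
  have hq : ∀ (q : G →₀ ℤ) (n : ZA c A), qm c A (ap (TZ c A) q n) = ap (TM c A) q (qm c A n) :=
    ap_comm (TZ c A) (TM c A) (qm c A) fun g a => (TM_qm A g a).symm
  obtain ⟨n, k, w', hk, hw⟩ := h (fun i => qm c A (x i)) (fun j => by
    have h1 : ∑ i, ap (TM c A) (D (bs G i) j).coeff (qm c A (x i)) =
        qm c A (∑ i, ap (TZ c A) (D (bs G i) j).coeff (x i)) := by
      rw [map_sum]
      exact Finset.sum_congr rfl fun i _ => (hq _ _).symm
    rw [h1, qm_eq_zero]
    exact hx j)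
  choose w hw' using fun s => qm_surj A (w' s)
  refine ⟨n, k, w, hk, fun i => ?_⟩
  have h2 : qm c A (x i - ∑ s, ap (TZ c A) (k s i).coeff (w s)) = 0 := by
    rw [map_sub, map_sum, sub_eq_zero]
    refine (hw i).trans (Finset.sum_congr rfl fun s _ => ?_)
    rw [hq, hw']
  exact (qm_eq_zero A _).1 h2

end Pool.Agent.LibFi47.FL
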