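import Pool.Agent.LibFi47.FC1
import Pool.Agent.LibFi47.FC2
import Pool.Agent.LibFi47.FC3
import Pool.Agent.LibFi47.FL


set_option autoImplicit false

namespace Pool.Agent.LibFi47.FS

open Pool.Agent.LibFi47.FC1 Pool.Agent.LibFi47.FC2 Pool.Agent.LibFi47.FC3 Pool.Agent.LibFi47.FL
open Pool.Agent.LibZIS Pool.Agent.LibCod83 Pool.Agent.LibQF83 Pool.Agent.LibDehn83
open Pool.Agent.LibRD47 Pool.Agent.LibFi47 Pool.Agent.LibRD47.RF1 Filter Topology CategoryTheory

variable {G I J : Type} [Group G]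

/-- evaluation at an index. -/
noncomputable def evZ {B : Type} [Group B] (c : CE G B) (A : AddSubgroup ℝ) (r : ℕ) :
    ZA c A →+ (G → ℝ) where
  toFun u := u.1 r
  map_zero' := rfl
  map_add' _ _ := rfl

lemma sum_val {B ι : Type} [Group B] (c : CE G B) (A : AddSubgroup ℝ) (s : Finset ι)
    (u : ι → ZA c A) (r : ℕ) : (∑ i ∈ s, u i).1 r = ∑ i ∈ s, (u i).1 r :=
  map_sum (evZ c A r) u s

lemma cf_le_sqF [Fintype I] (x : I →₀ MonoidAlgebra ℤ G) (i : I) :
    ∑' h, cf x i h ^ 2 ≤ sqF x := by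
  rw [sqF_eq]
  exact Finset.single_le_sum (f := fun i => ∑' h, cf x i h ^ 2)
    (fun i _ => tsum_nonneg fun h => sq_nonneg _) (Finset.mem_univ i)

/-- concentrated approximate cycles are small modulo cycles. -/
theorem exists_small [Fintype I] [Fintype J]
    (D : (I →₀ MonoidAlgebra ℤ G) →+ (J →₀ MonoidAlgebra ℤ G)) (hD : Eqv D)
    (a : ℕ → ℝ) (ha : ∀ r, 0 < a r) (hI : HC (TM (ce G a ha) ZI) D)
    (T : ℕ → (I →₀ MonoidAlgebra ℤ G)) (hT : ∀ i, DL (ce G a ha) fun r => cf (T r) i)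
    (hb : Tendsto (fun r => sqF (D (T r)) / a r) atTop (𝓝 0)) :
    ∃ W : ℕ → (I →₀ MonoidAlgebra ℤ G), (∀ r, D (W r) = 0) ∧
      Tendsto (fun r => sqF (T r - W r) / a r) atTop (𝓝 0) := by
  classical
  set X : I → ZA (ce G a ha) ZI := fun i =>
    ⟨fun r => cf (T r) i, hT i, fun r h => (mem_ZI _).2 ⟨_, rfl⟩⟩ with hX
  have hval : ∀ j r, (∑ i, ap (TZ (ce G a ha) ZI) (D (bs G i) j).coeff (X i)).1 r =
      cf (D (T r)) j := by
    intro j r
    rw [sum_val, cf_D D hD]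
    exact Finset.sum_congr rfl fun i _ => ap_TZ_val ZI _ (X i) r
  have hx : ∀ j, DN (ce G a ha) (∑ i, ap (TZ (ce G a ha) ZI) (D (bs G i) j).coeff (X i)).1 := by
    intro j
    refine dn_of_sq a ha _ (fun r => ?_) ?_
    · rw [hval]
      exact summable_cf _ j
    · refine squeeze_zero (fun r => ?_) (fun r => ?_) hb
      · exact div_nonneg (tsum_nonneg fun x => sq_nonneg _) (ha r).le
      · rw [hval]
        exact div_le_div_of_nonneg_right (cf_le_sqF _ j) (ha r).le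
  obtain ⟨n, k, w, hk, hw⟩ := lift_HC ZI D hI X hx
  have hY : ∀ s r, ∃ y : I →₀ MonoidAlgebra ℤ G, D y = 0 ∧
      ∀ i, cf y i = ap Tf (k s i).coeff ((w s).1 r) := by
    intro s r
    obtain ⟨C, hC⟩ := sq_of_dl a ha _ (w s).2.1
    exact exists_conv D hD (k s) (hk s) ((w s).1 r) (fun x => (mem_ZI _).1 ((w s).2.2 r x))
      (hC r).1
  choose y hy hyc using hY
  refine ⟨fun r => ∑ s, y s r, fun r => ?_, ?_⟩
  · rw [map_sum]
    exact Finset.sum_eq_zero fun s _ => hy s r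
  have key : ∀ r i, cf (T r - ∑ s, y s r) i =
      ((X i).1 - (∑ s, ap (TZ (ce G a ha) ZI) (k s i).coeff (w s)).1) r := by
    intro r i
    rw [cf_sub, cf_sum, Pi.sub_apply, sum_val]
    refine congrArg₂ (· - ·) rfl (Finset.sum_congr rfl fun s _ => ?_)
    rw [hyc, ap_TZ_val]
  have h5 : ∀ r, sqF (T r - ∑ s, y s r) / a r = ∑ i,
      (∑' h, ((X i).1 - (∑ s, ap (TZ (ce G a ha) ZI) (k s i).coeff (w s)).1) r h ^ 2) / a r := by
    intro r
    rw [sqF_eq, Finset.sum_div]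
    refine Finset.sum_congr rfl fun i _ => ?_
    rw [key]
  simp only [h5]
  have h6 := tendsto_finsetSum Finset.univ fun i _ => (sq_of_dn a ha _ (hw i)).2
  simpa using h6

end Pool.Agent.LibFi47.FS
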