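import Pool.Agent.LibFi47.FR
import Pool.Agent.LibFi47.FS

/-
Row FM. Compare with LibRD47/RF6.lean (lin_two). By contradiction: for every r : ℕ there is x with no y such that D y = D x and sqF y ≤ r * sqF (D x).
sqF is a natural number (FC3.exists_nat): choose T r with D (T r) = D x and sqF (T r) minimal (Nat.find / well-founded minimum). Then r * sqF (D (T r)) < sqF (T r).
a r := sqF (T r) > 0 and sqF (D (T r)) / a r < 1 / r → 0. FR.exists_round gives Y, FS.exists_small applied to T' r := T r - Y r (D (T' r) = D (T r)) gives W with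
sqF (T r - Y r - W r) / a r → 0 and D (T r - Y r - W r) = D (T r). For large r: sqF (T r - Y r - W r) < a r = sqF (T r), against the minimality.
-/

set_option autoImplicit false

namespace Pool.Agent.LibFi47.FM

open Pool.Agent.LibFi47.FC1 Pool.Agent.LibFi47.FC2 Pool.Agent.LibFi47.FC3 Pool.Agent.LibFi47.FL
open Pool.Agent.LibFi47.FR Pool.Agent.LibFi47.FS
open Pool.Agent.LibZIS Pool.Agent.LibCod83 Pool.Agent.LibQF83 Pool.Agent.LibDehn83
open Pool.Agent.LibRD47 Pool.Agent.LibFi47 Filter Topology CategoryTheory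

variable {G I J : Type} [Group G]

/-- the linear isoperimetric inequality. -/
theorem lin_of [Fintype I] [Fintype J]
    (D : (I →₀ MonoidAlgebra ℤ G) →+ (J →₀ MonoidAlgebra ℤ G)) (hD : Eqv D)
    (hR : HC (TM (ce G (fun _ => 1) fun _ => one_pos) ⊤) D)
    (hI : ∀ (a : ℕ → ℝ) (ha : ∀ r, 0 < a r), HC (TM (ce G a ha) ZI) D) :
    ∃ C : ℝ, ∀ x : I →₀ MonoidAlgebra ℤ G, ∃ y : I →₀ MonoidAlgebra ℤ G,
      D y = D x ∧ sqF y ≤ C * sqF (D x) := by
  classical
  have hnat : ∀ x : I →₀ MonoidAlgebra ℤ G, ∃ n : ℕ, sqF x = n := exists_nat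
  choose sN hsN using hnat
  by_contra hcon
  have hmin : ∀ r : ℕ, ∃ T : I →₀ MonoidAlgebra ℤ G,
      (∀ T' : I →₀ MonoidAlgebra ℤ G, D T' = D T → sN T ≤ sN T') ∧
      (r : ℝ) * sqF (D T) < sqF T := by
    intro r
    by_contra hr
    apply hcon
    refine ⟨r, fun T0 => ?_⟩
    have hex : ∃ n, ∃ T' : I →₀ MonoidAlgebra ℤ G, D T' = D T0 ∧ sN T' = n :=
      ⟨_, T0, rfl, rfl⟩
    obtain ⟨T, hb, hn⟩ := Nat.find_spec hex
    refine ⟨T, hb, ?_⟩
    by_contra hlt
    apply hr
    refine ⟨T, fun T' hb' => ?_, ?_⟩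
    · rw [hn]
      exact Nat.find_min' hex ⟨T', hb'.trans hb, rfl⟩
    · rw [hb]
      exact lt_of_not_ge hlt
  choose T hTm hTs using hmin
  have hapos : ∀ r, 0 < sqF (T r) := fun r =>
    lt_of_le_of_lt (mul_nonneg (Nat.cast_nonneg r) (sqF_nonneg _)) (hTs r)
  have hb : Tendsto (fun r => sqF (D (T r)) / sqF (T r)) atTop (𝓝 0) := by
    refine squeeze_zero' (Eventually.of_forall fun r => div_nonneg (sqF_nonneg _) (hapos r).le)
      ?_ tendsto_one_div_atTop_nhds_zero_nat
    filter_upwards [eventually_gt_atTop 0] with r hr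
    have hr' : (0 : ℝ) < r := by exact_mod_cast hr
    rw [div_le_div_iff₀ (hapos r) hr', one_mul, mul_comm]
    exact (hTs r).le
  obtain ⟨Y, hY, h1⟩ := exists_round D hD hR (fun r => sqF (T r)) hapos T (fun r => le_rfl) hb
  have hb1 : ∀ r, D (T r - Y r) = D (T r) := fun r => by
    rw [map_sub, hY, sub_zero]
  have hb' : Tendsto (fun r => sqF (D (T r - Y r)) / sqF (T r)) atTop (𝓝 0) := by
    have he : (fun r => sqF (D (T r - Y r)) / sqF (T r)) =
        fun r => sqF (D (T r)) / sqF (T r) := by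
      funext r
      rw [hb1]
    rw [he]
    exact hb
  obtain ⟨W, hW, h2⟩ := exists_small D hD (fun r => sqF (T r)) hapos (hI _ hapos)
    (fun r => T r - Y r) h1 hb'
  have hb2 : ∀ r, D (T r - Y r - W r) = D (T r) := fun r => by
    rw [map_sub, hb1, hW, sub_zero]
  obtain ⟨r, hr⟩ := (h2.eventually_lt_const one_pos).exists
  have h5 : sqF (T r - Y r - W r) < sqF (T r) := by
    have h7 : sqF (T r - Y r - W r) / sqF (T r) < 1 := hr
    rwa [div_lt_one (hapos r)] at h7
  have h6 := hTm r _ (hb2 r)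
  rw [hsN, hsN (T r)] at h5
  have h7 : sN (T r - Y r - W r) < sN (T r) := by exact_mod_cast h5
  omega

end Pool.Agent.LibFi47.FM
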