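import Pool.Agent.LibFi47.FC1
import Pool.Agent.LibFi47.FC2
import Pool.Agent.LibFi47.FC3
import Pool.Agent.LibFi47.FL


set_option autoImplicit false

namespace Pool.Agent.LibFi47.FR

open Pool.Agent.LibFi47.FC1 Pool.Agent.LibFi47.FC2 Pool.Agent.LibFi47.FC3 Pool.Agent.LibFi47.FL
open Pool.Agent.LibZIS Pool.Agent.LibCod83 Pool.Agent.LibQF83 Pool.Agent.LibDehn83
open Pool.Agent.LibRD47 Pool.Agent.LibFi47 Pool.Agent.LibRD47.RF1 Pool.Agent.LibRD47.RF2
open Filter Topology CategoryTheory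

variable {G I J : Type} [Group G]

/-- evaluation at an index. -/
noncomputable def evZ {B : Type} [Group B] (c : CE G B) (A : AddSubgroup ℝ) (r : ℕ) :
    ZA c A →+ (G → ℝ) where
  toFun u := u.1 r
  map_zero' := rfl
  map_add' _ _ := rfl

lemma sum_val {B ι : Type} [Group B] (c : CE G B) (A : AddSubgroup ℝ) (s : Finset ι)
    (u : ι → ZA c A) (r : ℕ) : (∑ i ∈ s, u i).1 r = ∑ i ∈ s, (u i).1 r :=
  map_sum (evZ c A r) u s

/-- scaling. -/
noncomputable def scf (t : ℝ) : (G → ℝ) →+ (G → ℝ) where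
  toFun u := fun x => t * u x
  map_zero' := by funext x; simp
  map_add' u v := by funext x; simp [mul_add]

lemma cf_le_sqF [Fintype I] (x : I →₀ MonoidAlgebra ℤ G) (i : I) :
    ∑' h, cf x i h ^ 2 ≤ sqF x := by
  rw [sqF_eq]
  exact Finset.single_le_sum (f := fun i => ∑' h, cf x i h ^ 2)
    (fun i _ => tsum_nonneg fun h => sq_nonneg _) (Finset.mem_univ i)

/-- after the subtraction of cycles the coefficients are concentrated. -/
theorem exists_round [Fintype I] [Fintype J]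
    (D : (I →₀ MonoidAlgebra ℤ G) →+ (J →₀ MonoidAlgebra ℤ G)) (hD : Eqv D)
    (hR : HC (TM (ce G (fun _ => 1) fun _ => one_pos) ⊤) D)
    (a : ℕ → ℝ) (ha : ∀ r, 0 < a r) (T : ℕ → (I →₀ MonoidAlgebra ℤ G)) (hT : ∀ r, sqF (T r) ≤ a r)
    (hb : Tendsto (fun r => sqF (D (T r)) / a r) atTop (𝓝 0)) :
    ∃ Y : ℕ → (I →₀ MonoidAlgebra ℤ G), (∀ r, D (Y r) = 0) ∧
      ∀ i, DL (ce G a ha) fun r => cf (T r - Y r) i := by
  classical
  set c1 := ce G (fun _ => (1 : ℝ)) (fun _ => one_pos) with hc1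
  set ca := ce G a ha with hca
  have hsa : ∀ r, 0 < √(a r) := fun r => Real.sqrt_pos.2 (ha r)
  have hss : ∀ r, √(a r) ^ 2 = a r := fun r => Real.sq_sqrt (ha r).le
  have h1 : ∀ i : I, DL c1 (fun r h => cf (T r) i h / √(a r)) := by
    intro i
    have e1 : ∀ r h, (cf (T r) i h / √(a r)) ^ 2 = cf (T r) i h ^ 2 / a r := by
      intro r h
      rw [div_pow, hss]
    refine dl_of_sq _ 1 (fun r => ?_) (fun r => ?_)
    · simp only [e1]
      exact (summable_cf (T r) i).div_const _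
    · simp only [e1]
      rw [tsum_div_const, div_le_one (ha r)]
      exact (cf_le_sqF (T r) i).trans (hT r)
  set X : I → ZA c1 ⊤ := fun i => ⟨fun r h => cf (T r) i h / √(a r), h1 i,
    fun _ _ => AddSubgroup.mem_top _⟩ with hX
  have hcf : ∀ r i, cf (T r) i = scf (√(a r)) ((X i).1 r) := by
    intro r i
    funext h
    show _ = √(a r) * (cf (T r) i h / √(a r))
    rw [mul_div_cancel₀ _ (hsa r).ne']
  have hval : ∀ j r, scf (√(a r)) ((∑ i, ap (TZ c1 ⊤) (D (bs G i) j).coeff (X i)).1 r) =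
      cf (D (T r)) j := by
    intro j r
    rw [sum_val, cf_D D hD, map_sum]
    refine Finset.sum_congr rfl fun i _ => ?_
    rw [ap_TZ_val, ap_comm Tf Tf (scf (√(a r))) (fun g u => rfl), hcf]
  have hx : ∀ j, DN c1 (∑ i, ap (TZ c1 ⊤) (D (bs G i) j).coeff (X i)).1 := by
    intro j
    have e3 : ∀ r x, ((∑ i, ap (TZ c1 ⊤) (D (bs G i) j).coeff (X i)).1 r x) ^ 2 =
        cf (D (T r)) j x ^ 2 / a r := by
      intro r x
      rw [← hval]
      show _ = (√(a r) * _) ^ 2 / a r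
      rw [mul_pow, hss, mul_div_cancel_left₀ _ (ha r).ne']
    refine dn_of_sq _ _ _ (fun r => ?_) ?_
    · simp only [e3]
      exact (summable_cf _ j).div_const _
    · refine squeeze_zero (fun r => ?_) (fun r => ?_) hb
      · exact div_nonneg (tsum_nonneg fun x => sq_nonneg _) zero_le_one
      · rw [div_one]
        simp only [e3]
        rw [tsum_div_const]
        exact div_le_div_of_nonneg_right (cf_le_sqF _ j) (ha r).le
  obtain ⟨n, k, w, hk, hw⟩ := lift_HC ⊤ D hR X hx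
  have hY : ∀ s r, ∃ y : I →₀ MonoidAlgebra ℤ G, D y = 0 ∧
      ∀ i, cf y i = ap Tf (k s i).coeff (fun x => (round (√(a r) * (w s).1 r x) : ℝ)) := by
    intro s r
    obtain ⟨C, hC⟩ := sq_of_dl _ _ _ (w s).2.1
    refine exists_conv D hD (k s) (hk s) _ (fun x => ⟨_, rfl⟩) ?_
    refine Summable.of_nonneg_of_le (fun x => sq_nonneg _) (fun x => ?_)
      ((hC r).1.mul_left (4 * a r))
    set t := √(a r) * (w s).1 r x with ht
    have h3 : |(round t : ℝ)| ≤ 2 * |t| := by
      have h4 := round_le t 0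
      rw [Int.cast_zero, sub_zero] at h4
      have h5 : (round t : ℝ) = t - (t - round t) := by ring
      rw [h5]
      refine (abs_sub _ _).trans ?_
      linarith
    have h6 : ((round t : ℤ) : ℝ) ^ 2 ≤ (2 * |t|) ^ 2 := by
      rw [← sq_abs ((round t : ℤ) : ℝ)]
      exact pow_le_pow_left₀ (abs_nonneg _) h3 2
    refine h6.trans (le_of_eq ?_)
    rw [mul_pow, sq_abs, ht, mul_pow, hss]
    ring
  choose y hy hyc using hY
  -- the fractional parts
  have hfr : ∀ s, DL ca (fun r x => √(a r) * (w s).1 r x - (round (√(a r) * (w s).1 r x) : ℝ)) :=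
    fun s => dl_frac a ha _ (w s).2.1
  set e : Fin n → ZA ca ⊤ := fun s => ⟨_, hfr s, fun _ _ => AddSubgroup.mem_top _⟩ with he
  have hev : ∀ s r, (fun x => (round (√(a r) * (w s).1 r x) : ℝ)) =
      scf (√(a r)) ((w s).1 r) - (e s).1 r := by
    intro s r
    funext x
    show _ = √(a r) * (w s).1 r x -
      (√(a r) * (w s).1 r x - (round (√(a r) * (w s).1 r x) : ℝ))
    ring
  refine ⟨fun r => ∑ s, y s r, fun r => ?_, fun i => ?_⟩
  · rw [map_sum]
    exact Finset.sum_eq_zero fun s _ => hy s r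
  have key : ∀ r, cf (T r - ∑ s, y s r) i =
      scf (√(a r)) (((X i).1 - (∑ s, ap (TZ c1 ⊤) (k s i).coeff (w s)).1) r) +
        (∑ s, ap (TZ ca ⊤) (k s i).coeff (e s)).1 r := by
    intro r
    have e4 : ∑ s, cf (y s r) i = scf (√(a r)) ((∑ s, ap (TZ c1 ⊤) (k s i).coeff (w s)).1 r) -
        (∑ s, ap (TZ ca ⊤) (k s i).coeff (e s)).1 r := by
      rw [sum_val, sum_val, map_sum, ← Finset.sum_sub_distrib]
      refine Finset.sum_congr rfl fun s _ => ?_
      rw [hyc, hev, map_sub, ap_TZ_val, ap_TZ_val,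
        ap_comm Tf Tf (scf (√(a r))) (fun g u => rfl)]
    rw [cf_sub, cf_sum, e4, Pi.sub_apply, map_sub, ← hcf]
    abel
  have h3 := (dn_scale a ha _ (hw i)).dl.add (∑ s, ap (TZ ca ⊤) (k s i).coeff (e s)).2.1
  have h4 : (fun r => cf (T r - ∑ s, y s r) i) = fun r x =>
      √(a r) * ((X i).1 - (∑ s, ap (TZ c1 ⊤) (k s i).coeff (w s)).1) r x +
        (∑ s, ap (TZ ca ⊤) (k s i).coeff (e s)).1 r x := by
    funext r
    rw [key r]
    rfl
  rw [h4]
  exact h3

end Pool.Agent.LibFi47.FR
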