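import Pool.Agent.LibFi47.Base

set_option autoImplicit false

namespace Pool.Agent.LibFi47.HX1

open Pool.Agent.LibFi47 CategoryTheory

variable {G : Type} [Group G]

/-- exactness of the tensor product with a resolution in degree `m + 1`. -/
theorem tens_exact {A : Rep.{0} ℤ G} (P : ProjectiveResolution (Rep.trivial ℤ G ℤ)) (m : ℕ)
    (h : ¬ Nontrivial (groupHomology A (m + 1)))
    (u : (HomologicalComplex.coinvariantsTensorObj A P.complex).X (m + 1))
    (hu : (HomologicalComplex.coinvariantsTensorObj A P.complex).d (m + 1) m u = 0) :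
    ∃ v : (HomologicalComplex.coinvariantsTensorObj A P.complex).X (m + 1 + 1),
      (HomologicalComplex.coinvariantsTensorObj A P.complex).d (m + 1 + 1) (m + 1) v = u := by
  classical
  have h1 : Subsingleton (groupHomology A (m + 1)) := not_nontrivial_iff_subsingleton.1 h
  have h2 : Limits.IsZero (groupHomology A (m + 1)) := ModuleCat.isZero_of_subsingleton _
  have h3 : Limits.IsZero
      ((HomologicalComplex.coinvariantsTensorObj A P.complex).homology (m + 1)) :=
    h2.of_iso (groupHomologyIso A (m + 1) P).symm
  have h4 : (HomologicalComplex.coinvariantsTensorObj A P.complex).ExactAt (m + 1) :=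
    (HomologicalComplex.exactAt_iff_isZero_homology _ _).2 h3
  rw [HomologicalComplex.exactAt_iff' _ (m + 1 + 1) (m + 1) m (by simp) (by simp)] at h4
  rw [ShortComplex.moduleCat_exact_iff] at h4
  exact h4 u hu

end Pool.Agent.LibFi47.HX1
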